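import Pool.Agent.Q283.FT.Stm3
import Pool.Agent.TH942.FG

/-!
# Project FT, job MWR: the index of `2 E(F)`
-/

set_option autoImplicit false

namespace Pool.Agent.Q65.FT

open NumberField WeierstrassCurve
open Pool.Agent.Q283.FT
open Pool.Agent.Q283.EN (sh)
open Pool.Agent.TH841.SH (IsR)
open Pool.Agent.TH841.SH.D (Pt)

section gp

variable {M : Type} [AddCommGroup M]

/-- for a finite group the index of `2 T` is the number of the elements of order dividing `2` -/
theorem index_fin {T : Type} [AddCommGroup T] [Finite T] :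
    (nsmulAddMonoidHom 2 : T →+ T).range.index = Nat.card (nsmulAddMonoidHom 2 : T →+ T).ker := by
  have h1 := AddSubgroup.card_mul_index (nsmulAddMonoidHom 2 : T →+ T).ker
  have h2 := AddSubgroup.card_mul_index (nsmulAddMonoidHom 2 : T →+ T).range
  rw [AddSubgroup.index_ker] at h1
  have h3 : 0 < Nat.card (nsmulAddMonoidHom 2 : T →+ T).range := Nat.card_pos
  apply Nat.eq_of_mul_eq_mul_left h3
  rw [h2, mul_comm, h1]

/-- the index of `2 M` for a finitely generated abelian group -/
theorem card_quot (hM : Module.Finite ℤ M) :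
    Nat.card (M ⧸ (nsmulAddMonoidHom 2 : M →+ M).range) =
      Nat.card {x : M // (2 : ℕ) • x = 0} * 2 ^ Module.finrank ℤ M := by
  set T : Submodule ℤ M := Submodule.torsion ℤ M with hT
  have hr : Module.finrank ℤ (M ⧸ T) = Module.finrank ℤ M := finrank_quotient_eq_of_le_torsion le_rfl
  have hfree : Module.Free ℤ (M ⧸ T) := inferInstance
  let b := Module.finBasisOfFinrankEq ℤ (M ⧸ T) hr
  let g : (Fin (Module.finrank ℤ M) → ℤ) →+ (Fin (Module.finrank ℤ M) → ZMod 2) :=
    { toFun := fun v i => (v i : ZMod 2)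
      map_zero' := by
        funext i
        simp
      map_add' := by
        intro v w
        funext i
        simp }
  have hg : Function.Surjective g := by
    intro v
    refine ⟨fun i => ((v i).val : ℤ), ?_⟩
    funext i
    show (((v i).val : ℤ) : ZMod 2) = v i
    rw [Int.cast_natCast, ZMod.natCast_zmod_val]
  let f : M →+ (Fin (Module.finrank ℤ M) → ZMod 2) :=
    g.comp (b.equivFun.toLinearMap.toAddMonoidHom.comp (Submodule.mkQ T).toAddMonoidHom)
  have hfx : ∀ x, f x = g (b.equivFun (Submodule.mkQ T x)) := fun _ => rfl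
  have hf : Function.Surjective f := by
    intro v
    obtain ⟨w, hw⟩ := hg v
    obtain ⟨x, hx⟩ := Submodule.mkQ_surjective T (b.equivFun.symm w)
    refine ⟨x, ?_⟩
    rw [hfx, hx, LinearEquiv.apply_symm_apply, hw]
  have hker : f.ker = (nsmulAddMonoidHom 2 : M →+ M).range ⊔ T.toAddSubgroup := by
    apply le_antisymm
    · intro x hx
      rw [AddMonoidHom.mem_ker, hfx] at hx
      have h1 : ∀ i, ∃ c : ℤ, b.equivFun (Submodule.mkQ T x) i = 2 * c := by
        intro i
        have h2 : ((b.equivFun (Submodule.mkQ T x) i : ℤ) : ZMod 2) = 0 := congrFun hx i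
        exact (ZMod.intCast_zmod_eq_zero_iff_dvd _ 2).1 h2
      choose c hc using h1
      obtain ⟨y, hy⟩ := Submodule.mkQ_surjective T (b.equivFun.symm c)
      have h3 : Submodule.mkQ T x = Submodule.mkQ T ((2 : ℕ) • y) := by
        apply b.equivFun.injective
        rw [map_nsmul, map_nsmul, hy, LinearEquiv.apply_symm_apply]
        funext i
        rw [hc i]
        simp
      have h4 : x - (2 : ℕ) • y ∈ T := by
        rw [← sub_eq_zero, ← map_sub] at h3
        rwa [Submodule.mkQ_apply, Submodule.Quotient.mk_eq_zero] at h3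
      rw [AddSubgroup.mem_sup]
      exact ⟨(2 : ℕ) • y, ⟨y, rfl⟩, x - (2 : ℕ) • y, h4, by abel⟩
    · refine sup_le ?_ ?_
      · rintro _ ⟨x, rfl⟩
        rw [AddMonoidHom.mem_ker]
        show f ((2 : ℕ) • x) = 0
        rw [map_nsmul]
        funext i
        show (2 : ℕ) • (f x i) = 0
        rw [nsmul_eq_mul]
        have : ((2 : ℕ) : ZMod 2) = 0 := ZMod.natCast_self 2
        rw [this, zero_mul]
      · intro x hx
        have hx' : x ∈ T := hx
        rw [AddMonoidHom.mem_ker, hfx]
        have h1 : Submodule.mkQ T x = 0 := by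
          rwa [Submodule.mkQ_apply, Submodule.Quotient.mk_eq_zero]
        rw [h1, map_zero, map_zero]
  have h1 : f.ker.index = 2 ^ Module.finrank ℤ M := by
    rw [AddSubgroup.index_ker, AddMonoidHom.range_eq_top.2 hf]
    rw [AddSubgroup.card_top, Nat.card_fun, Nat.card_zmod, Nat.card_eq_fintype_card, Fintype.card_fin]
  -- the torsion is finite
  have hTfin : Finite T := by
    have h2 : Module.Finite ℤ T := inferInstance
    exact Module.finite_of_fg_torsion T (Submodule.torsion_isTorsion)
  have hTfin' : Finite T.toAddSubgroup := hTfin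
  have h2 : (nsmulAddMonoidHom 2 : M →+ M).range.relIndex f.ker = Nat.card {x : M // (2 : ℕ) • x = 0} := by
    rw [hker, AddSubgroup.relIndex_sup_left]
    have h3 : (nsmulAddMonoidHom 2 : M →+ M).range.addSubgroupOf T.toAddSubgroup =
        (nsmulAddMonoidHom 2 : T.toAddSubgroup →+ T.toAddSubgroup).range := by
      ext t
      rw [AddSubgroup.mem_addSubgroupOf]
      constructor
      · rintro ⟨x, hx⟩
        have hx1 : (2 : ℕ) • x = (t : M) := hx
        have hxT : x ∈ T := by
          obtain ⟨c, hc⟩ := t.2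
          have hc0 : ((c : ℤ) * 2) ∈ nonZeroDivisors ℤ :=
            mul_mem c.2 (mem_nonZeroDivisors_of_ne_zero (by norm_num))
          refine ⟨⟨(c : ℤ) * 2, hc0⟩, ?_⟩
          show ((c : ℤ) * 2) • x = 0
          rw [mul_smul]
          have h5 : (2 : ℤ) • x = (t : M) := by
            rw [← hx1, ← natCast_zsmul]
            rfl
          rw [h5]
          exact hc
        refine ⟨⟨x, hxT⟩, ?_⟩
        exact Subtype.ext hx1
      · rintro ⟨x, rfl⟩
        exact ⟨x.1, rfl⟩
    show ((nsmulAddMonoidHom 2 : M →+ M).range.addSubgroupOf T.toAddSubgroup).index = _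
    rw [h3, index_fin]
    refine Nat.card_congr
      { toFun := fun t => ⟨t.1.1, ?_⟩
        invFun := fun x => ⟨⟨x.1, ?_⟩, ?_⟩
        left_inv := fun t => rfl
        right_inv := fun x => rfl }
    · have h4 : (2 : ℕ) • t.1 = 0 := t.2
      exact congrArg Subtype.val h4
    · refine ⟨⟨2, mem_nonZeroDivisors_of_ne_zero (by norm_num)⟩, ?_⟩
      show (2 : ℤ) • x.1 = 0
      have h5 : (2 : ℤ) • x.1 = (2 : ℕ) • x.1 := by
        rw [← natCast_zsmul]
        rfl
      rw [h5]
      exact x.2
    · exact Subtype.ext x.2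
  have h3 : (nsmulAddMonoidHom 2 : M →+ M).range ≤ f.ker := by
    rw [hker]
    exact le_sup_left
  have h4 := AddSubgroup.relIndex_mul_index h3
  rw [h1, h2] at h4
  exact h4.symm

end gp

section F

variable {F : Type} [Field F]

theorem isR_crv {e : Fin 3 → F} (he : Rt e) : IsR ((crv e).baseChange F) (e 0) (e 1) (e 2) where
  h1 := by
    show algebraMap F F 0 = 0
    exact map_zero _
  h2 := by
    show algebraMap F F 0 = _
    rw [he.sum, neg_zero, map_zero]
  h3 := by
    show algebraMap F F 0 = 0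
    exact map_zero _
  h4 := rfl
  h6 := rfl

theorem disc_ne {e : Fin 3 → F} (he : Rt e) :
    4 * (e 0 * e 1 + e 0 * e 2 + e 1 * e 2) ^ 3 + 27 * (-(e 0 * e 1 * e 2)) ^ 2 ≠ 0 := by
  have h2 : e 2 = -(e 0 + e 1) := by linear_combination he.sum
  have h01 : e 0 - e 1 ≠ 0 := sub_ne_zero.2 (he.inj.ne (by decide))
  have h02 : e 0 - e 2 ≠ 0 := sub_ne_zero.2 (he.inj.ne (by decide))
  have h12 : e 1 - e 2 ≠ 0 := sub_ne_zero.2 (he.inj.ne (by decide))
  have h3 : 4 * (e 0 * e 1 + e 0 * e 2 + e 1 * e 2) ^ 3 + 27 * (-(e 0 * e 1 * e 2)) ^ 2 =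
      -((e 0 - e 1) * (e 0 - e 2) * (e 1 - e 2)) ^ 2 := by
    rw [h2]
    ring
  rw [h3, neg_ne_zero]
  exact pow_ne_zero 2 (mul_ne_zero (mul_ne_zero h01 h02) h12)

theorem card_tors [NumberField F] {e : Fin 3 → F} (he : Rt e) :
    Nat.card {P : Pt (crv e) F // (2 : ℕ) • P = 0} = 4 := by
  let _ : DecidableEq F := Classical.decEq F
  have hR := isR_crv he
  have h2 : (2 : F) ≠ 0 := two_ne_zero
  have hab : e 0 ≠ e 1 := he.inj.ne (by decide)
  have hac : e 0 ≠ e 2 := he.inj.ne (by decide)
  have hbc : e 1 ≠ e 2 := he.inj.ne (by decide)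
  have hns : ∀ l : Fin 3, ((crv e).baseChange F).toAffine.Nonsingular (e l) 0 := by
    intro l
    apply hR.nons h2 hab hac hbc
    fin_cases l
    · simp
    · simp
    · simp
  have hadd : ∀ l : Fin 3, (2 : ℕ) • (Affine.Point.some (e l) 0 (hns l) : Pt (crv e) F) = 0 := by
    intro l
    rw [two_nsmul]
    exact (hR.add_self h2 (hns l)).2 rfl
  let Φ : Option (Fin 3) → {P : Pt (crv e) F // (2 : ℕ) • P = 0} := fun o =>
    match o with
    | none => ⟨0, smul_zero _⟩
    | some l => ⟨Affine.Point.some (e l) 0 (hns l), hadd l⟩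
  have hΦ : Function.Bijective Φ := by
    constructor
    · intro o o' h
      have h' : (Φ o).1 = (Φ o').1 := congrArg Subtype.val h
      rcases o with _ | l <;> rcases o' with _ | l'
      · rfl
      · exact absurd h'.symm (Affine.Point.some_ne_zero _)
      · exact absurd h' (Affine.Point.some_ne_zero _)
      · have h3 : (Affine.Point.some (e l) 0 (hns l) : ((crv e).baseChange F).toAffine.Point) =
            Affine.Point.some (e l') 0 (hns l') := h'
        rw [Affine.Point.some.injEq] at h3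
        rw [he.inj h3.1]
    · rintro ⟨P, hP⟩
      have hP' : P + P = 0 := by rw [← two_nsmul]; exact hP
      rcases hR.tors h2 hP' with h | ⟨hn, h⟩ | ⟨hn, h⟩ | ⟨hn, h⟩
      · exact ⟨none, Subtype.ext h.symm⟩
      · exact ⟨some 0, Subtype.ext h.symm⟩
      · exact ⟨some 1, Subtype.ext h.symm⟩
      · exact ⟨some 2, Subtype.ext h.symm⟩
  rw [← Nat.card_eq_of_bijective Φ hΦ, Nat.card_eq_fintype_card]
  rfl

/-- MWR -/
theorem mwr : S_MWR := by
  intro F _ _ e he
  have hfin : Module.Finite ℤ (Pt (crv e) F) := by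
    let _ : DecidableEq F := Classical.decEq F
    rw [Module.Finite.iff_addGroup_fg]
    have h := Pool.Agent.TH942.sfg (F := F) (a := e 0 * e 1 + e 0 * e 2 + e 1 * e 2)
      (b := -(e 0 * e 1 * e 2)) (disc_ne he)
    refine Pool.Agent.TH942.fg_of_eq ?_ h
    show Pool.Agent.TH942.sw (e 0 * e 1 + e 0 * e 2 + e 1 * e 2) (-(e 0 * e 1 * e 2)) = (crv e).baseChange F
    ext
    · exact (map_zero (algebraMap F F)).symm
    · exact (map_zero (algebraMap F F)).symm
    · exact (map_zero (algebraMap F F)).symm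
    · rfl
    · rfl
  exact ⟨hfin, by rw [card_quot hfin, card_tors he]⟩

end F

end Pool.Agent.Q65.FT
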